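import Pool.Agent.K3h30.RS.Stm2
import Pool.Agent.W401.Cheb.Main

/-!
# RS brick CHEB: Chebotarev's theorem with a positive proportion of prime ideals of degree one
-/

set_option autoImplicit false

namespace Pool.Agent.K3h73.RS

open NumberField IsDedekindDomain Filter Topology Pool.Agent.K3h30.RS Pool.Agent.W401.Cheb

/-- the kernel of a homomorphism of `𝓞 K` to the algebraic closure of `F_p` all whose values are in
`F_p` has norm `p` -/
theorem absNorm_ker {K : Type} [Field K] [NumberField K] {p : ℕ} [hp : Fact p.Prime]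
    (ψ : 𝓞 K →+* AlgebraicClosure (ZMod p)) (h : ∀ x, ψ x ^ p = ψ x) :
    Ideal.absNorm (RingHom.ker ψ) = p := by
  classical
  set P : Ideal (𝓞 K) := RingHom.ker ψ with hPdef
  have hPp : P.IsPrime := RingHom.ker_isPrime ψ
  have hpP : ((p : ℕ) : 𝓞 K) ∈ P := by
    rw [hPdef, RingHom.mem_ker, map_natCast, CharP.cast_eq_zero]
  have hP0 : P ≠ ⊥ := by
    intro h0
    rw [h0, Ideal.mem_bot] at hpP
    exact hp.out.ne_zero (by exact_mod_cast hpP)
  have hPm : P.IsMaximal := hPp.isMaximal hP0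
  let _ : Field (𝓞 K ⧸ P) := Ideal.Quotient.field P
  have hfin : Finite (𝓞 K ⧸ P) := Ring.HasFiniteQuotients.finiteQuotient hP0
  let _ := Fintype.ofFinite (𝓞 K ⧸ P)
  have hchar : CharP (𝓞 K ⧸ P) p := by
    rw [CharP.charP_iff_prime_eq_zero hp.out, ← map_natCast (Ideal.Quotient.mk P),
      Ideal.Quotient.eq_zero_iff_mem]
    exact hpP
  have hroot : ∀ y : 𝓞 K ⧸ P, y ^ p = y := by
    intro y
    obtain ⟨x, rfl⟩ := Ideal.Quotient.mk_surjective y
    rw [← map_pow, Ideal.Quotient.eq, hPdef, RingHom.mem_ker, map_sub, map_pow, h x, sub_self]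
  have hcard : Fintype.card (𝓞 K ⧸ P) ≤ p := by
    have h4 : (Finset.univ : Finset (𝓞 K ⧸ P)) ⊆
        (Polynomial.X ^ p - Polynomial.X : Polynomial (𝓞 K ⧸ P)).roots.toFinset := by
      intro y _
      rw [Multiset.mem_toFinset, Polynomial.mem_roots
        (FiniteField.X_pow_card_sub_X_ne_zero _ hp.out.one_lt)]
      simp [Polynomial.IsRoot.def, hroot y]
    have h5 := Finset.card_le_card h4
    rw [Finset.card_univ] at h5
    refine h5.trans ((Multiset.toFinset_card_le _).trans ((Polynomial.card_roots' _).trans ?_))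
    rw [FiniteField.X_pow_card_sub_X_natDegree_eq _ hp.out.one_lt]
  have hN : Ideal.absNorm P = Fintype.card (𝓞 K ⧸ P) := by
    rw [Ideal.absNorm_apply, Submodule.cardQuot_apply, Nat.card_eq_fintype_card]
  obtain ⟨n, hn⟩ := FiniteField.card (𝓞 K ⧸ P) p
  rw [hN]
  refine le_antisymm hcard ?_
  rw [hn.2]
  exact Nat.le_self_pow n.pos.ne' p

/-- From a homomorphism with Frobenius `Φ` to a prime ideal. -/
theorem prime_of {F L : Type} [Field F] [NumberField F] [Field L] [NumberField L] [Algebra F L]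
    (Φ : L ≃ₐ[F] L) {p : ℕ} [hp : Fact p.Prime] (ψ : 𝓞 L →+* AlgebraicClosure (ZMod p))
    (h : ∀ x y : 𝓞 L, (y : L) = Φ (x : L) → ψ y = ψ x ^ p) :
    ∃ v : HeightOneSpectrum (𝓞 F), Ideal.absNorm v.asIdeal = p ∧
      ∃ P : HeightOneSpectrum (𝓞 L), Above {v} P ∧
        ∀ x : 𝓞 L, P.valuation L (Φ (x : L) - (x : L) ^ (Ideal.absNorm v.asIdeal)) < 1 := by
  have hv := absNorm_ker (ψ.comp (algebraMap (𝓞 F) (𝓞 L))) (fun x => by
    symm
    rw [RingHom.comp_apply]
    refine h _ _ ?_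
    exact (Φ.commutes (x : F)).symm)
  have hpv : ((p : ℕ) : 𝓞 F) ∈ RingHom.ker (ψ.comp (algebraMap (𝓞 F) (𝓞 L))) := by
    rw [RingHom.mem_ker, map_natCast, CharP.cast_eq_zero]
  have hv0 : RingHom.ker (ψ.comp (algebraMap (𝓞 F) (𝓞 L))) ≠ ⊥ := by
    intro h0
    rw [h0, Ideal.mem_bot] at hpv
    exact hp.out.ne_zero (by exact_mod_cast hpv)
  have hpP : ((p : ℕ) : 𝓞 L) ∈ RingHom.ker ψ := by
    rw [RingHom.mem_ker, map_natCast, CharP.cast_eq_zero]
  have hP0 : RingHom.ker ψ ≠ ⊥ := by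
    intro h0
    rw [h0, Ideal.mem_bot] at hpP
    exact hp.out.ne_zero (by exact_mod_cast hpP)
  refine ⟨⟨_, RingHom.ker_isPrime _, hv0⟩, hv, ⟨_, RingHom.ker_isPrime _, hP0⟩, ?_, ?_⟩
  · refine ⟨_, Set.mem_singleton _, ?_⟩
    rfl
  · intro x
    have hint : IsIntegral ℤ (Φ (x : L)) := by
      have h1 : IsIntegral ℤ (x : L) := x.isIntegral_coe
      exact h1.map (Φ : L →+* L).toIntAlgHom
    obtain ⟨y, hval⟩ : ∃ y : 𝓞 L, (y : L) = Φ (x : L) := ⟨⟨Φ (x : L), hint⟩, rfl⟩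
    have h2 := h x y hval
    change HeightOneSpectrum.valuation L _ (Φ (x : L) - (x : L) ^ (Ideal.absNorm (RingHom.ker
      (ψ.comp (algebraMap (𝓞 F) (𝓞 L)))))) < 1
    rw [hv]
    have h3 : Φ (x : L) - (x : L) ^ p = algebraMap (𝓞 L) L (y - x ^ p) := by
      rw [map_sub, map_pow, ← hval]
    rw [h3, HeightOneSpectrum.valuation_lt_one_iff_mem]
    change _ ∈ RingHom.ker ψ
    rw [RingHom.mem_ker, map_sub, map_pow, h2, sub_self]

theorem t_CHEB : S_CHEB := by
  intro F L _ _ _ _ _ Φ bad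
  classical
  have hcl : IsAlgClosure ℚ (AlgebraicClosure L) :=
    IsAlgClosure.ofAlgebraic ℚ L (AlgebraicClosure L)
  have hnorm : Normal ℚ (AlgebraicClosure L) := IsAlgClosure.normal ℚ (AlgebraicClosure L)
  have hgal : IsGalois ℚ (AlgebraicClosure L) := {}
  let E := IntermediateField.normalClosure ℚ L (AlgebraicClosure L)
  have : FiniteDimensional ℚ E := inferInstance
  have : NumberField E := {}
  have : IsGalois ℚ E := IsGalois.normalClosure ℚ L (AlgebraicClosure L)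
  let Φ₀ : L ≃ₐ[ℚ] L := Φ.restrictScalars ℚ
  let Φ' : Gal(E/ℚ) := Φ₀.liftNormal E
  have hΦ' : ∀ x : L, Φ' (algebraMap L E x) = algebraMap L E (Φ x) := fun x =>
    AlgEquiv.liftNormal_commutes Φ₀ E x
  obtain ⟨D, hD, htor⟩ := torsor E
  set A : ℕ := D * ∏ v ∈ bad, Ideal.absNorm v.asIdeal with hA
  have hA0 : A ≠ 0 := by
    rw [hA]
    refine mul_ne_zero hD.ne' ?_
    refine Finset.prod_ne_zero_iff.2 fun v _ => ?_
    rw [Ne, Ideal.absNorm_eq_zero_iff]
    exact v.ne_bot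
  -- the prime ideals
  have key : ∀ p : ℕ, p.Prime → ¬ p ∣ A → xp E Φ' p ≠ 0 →
      ∃ v : HeightOneSpectrum (𝓞 F), Ideal.absNorm v.asIdeal = p ∧ v ∉ bad ∧
        ∃ P : HeightOneSpectrum (𝓞 L), Above {v} P ∧
          ∀ x : 𝓞 L, P.valuation L (Φ (x : L) - (x : L) ^ (Ideal.absNorm v.asIdeal)) < 1 := by
    intro p hp hpA hx
    have hpF : Fact p.Prime := ⟨hp⟩
    obtain ⟨φ₀, hφ₀⟩ : ∃ φ₀ : 𝓞 E →+* AlgebraicClosure (ZMod p), HasFrob p φ₀ Φ' := by
      unfold xp at hx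
      rw [dif_pos hp] at hx
      obtain ⟨⟨⟨φ₀, hφ₀⟩⟩, -⟩ := Nat.card_ne_zero.1 hx
      exact ⟨φ₀, hφ₀⟩
    obtain ⟨v, hv, P, hP, hPx⟩ := prime_of Φ (φ₀.comp (algebraMap (𝓞 L) (𝓞 E))) (by
      intro x y hy
      rw [RingHom.comp_apply, RingHom.comp_apply, ← hφ₀]
      congr 1
      apply RingOfIntegers.ext
      change algebraMap L E (y : L) = Φ' (algebraMap L E (x : L))
      rw [hΦ', hy])
    refine ⟨v, hv, ?_, P, hP, hPx⟩
    intro hbad
    apply hpA
    rw [hA]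
    refine dvd_mul_of_dvd_right (dvd_trans ?_ (Finset.dvd_prod_of_mem _ hbad)) _
    rw [hv]
  -- the mean value
  set n : ℕ := Nat.card Gal(E/ℚ) with hn
  have hn0 : 0 < n := Nat.card_pos
  have hle : ∀ p : ℕ, p.Prime → ¬ p ∣ A → xp E Φ' p ≤ n := by
    intro p hp hpA
    have hpF : Fact p.Prime := ⟨hp⟩
    have hpD : ¬ p ∣ D := fun h => hpA (hA ▸ h.mul_right _)
    have ht := (htor p hpD).1
    have hfin : Finite (𝓞 E →+* AlgebraicClosure (ZMod p)) := by
      refine Nat.finite_of_card_ne_zero ?_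
      rw [ht]
      exact hn0.ne'
    unfold xp
    rw [dif_pos hp, hn, ← ht]
    exact Nat.card_le_card_of_injective _ Subtype.val_injective
  let good : ℕ → Prop := fun p => ¬ p ∣ A ∧ xp E Φ' p ≠ 0
  let a : ℕ → ℝ := fun p => if p ∣ A then 0 else (xp E Φ' p : ℝ)
  have ha : Tendsto (M a) atTop (𝓝 1) := by
    refine M_congr (Nat.pos_of_ne_zero hA0) (b := fun p => (xp E Φ' p : ℝ)) ?_
      (chebotarev E Φ')
    intro p _ hpA
    simp only [a, if_neg hpA]
  have hab : ∀ p, p.Prime → a p ≤ (fun p => (n : ℝ) * (if good p then 1 else 0)) p := by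
    intro p hp
    simp only [a, good]
    by_cases h1 : p ∣ A
    · rw [if_pos h1]
      split_ifs <;> simp
    · rw [if_neg h1]
      by_cases h2 : xp E Φ' p = 0
      · rw [h2]
        split_ifs <;> simp
      · rw [if_pos ⟨h1, h2⟩, mul_one]
        exact_mod_cast hle p hp h1
  refine ⟨1 / (2 * n), by positivity, ?_⟩
  have h12 : ∀ᶠ N : ℕ in atTop, (1 / 2 : ℝ) < M a N := ha.eventually (lt_mem_nhds (by norm_num))
  filter_upwards [h12, eventually_ge_atTop 2] with X hX hX2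
  have hpc : 0 < (Nat.primeCounting X : ℝ) := by
    have : Nat.primeCounting X ≠ 0 := by
      rw [Ne, Nat.primeCounting_eq_zero_iff]
      omega
    exact_mod_cast Nat.pos_of_ne_zero this
  have h3 : (1 / 2 : ℝ) < M (fun p => (n : ℝ) * (if good p then 1 else 0)) X :=
    lt_of_lt_of_le hX (M_mono hab X)
  rw [M_smul] at h3
  unfold M at h3
  have h4 : (∑ p ∈ pr X, (if good p then (1 : ℝ) else 0)) = (((pr X).filter good).card : ℝ) := by
    rw [Finset.sum_ite, Finset.sum_const_zero, add_zero, Finset.sum_const, nsmul_eq_mul, mul_one]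
  rw [h4] at h3
  have hn1 : (0 : ℝ) < n := by exact_mod_cast hn0
  have h5 : 1 / (2 * (n : ℝ)) * (Nat.primeCounting X : ℝ) ≤ (((pr X).filter good).card : ℝ) := by
    have h6 : (n : ℝ) * ((((pr X).filter good).card : ℝ) / (Nat.primeCounting X : ℝ)) =
      (n * (((pr X).filter good).card : ℝ)) / (Nat.primeCounting X : ℝ) := by ring
    rw [h6, lt_div_iff₀ hpc] at h3
    rw [div_mul_eq_mul_div, one_mul, div_le_iff₀ (by positivity)]
    linarith
  refine h5.trans ?_
  have hfin : Finite {v : HeightOneSpectrum (𝓞 F) // (v ∉ bad ∧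
      ∃ P : HeightOneSpectrum (𝓞 L), Above {v} P ∧
        ∀ x : 𝓞 L, P.valuation L (Φ (x : L) - (x : L) ^ (Ideal.absNorm v.asIdeal)) < 1) ∧
          Ideal.absNorm v.asIdeal ≤ X} := by
    have h7 := Ideal.finite_setOfPred_absNorm_le (S := 𝓞 F) X
    have h8 : Finite {I : Ideal (𝓞 F) // Ideal.absNorm I ≤ X} := h7
    refine Finite.of_injective (fun v => (⟨v.1.asIdeal, v.2.2⟩ :
      {I : Ideal (𝓞 F) // Ideal.absNorm I ≤ X})) ?_
    intro v w hvw
    apply Subtype.ext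
    apply HeightOneSpectrum.ext
    exact congrArg Subtype.val hvw
  have h9 : ((pr X).filter good).card = Nat.card ((pr X).filter good) := by
    rw [Nat.card_eq_fintype_card, Fintype.card_coe]
  rw [h9]
  refine Nat.cast_le.2 ?_
  have h10 : ∀ q : ((pr X).filter good), ∃ v : HeightOneSpectrum (𝓞 F),
      Ideal.absNorm v.asIdeal = (q : ℕ) ∧ v ∉ bad ∧
        ∃ P : HeightOneSpectrum (𝓞 L), Above {v} P ∧
          ∀ x : 𝓞 L, P.valuation L (Φ (x : L) - (x : L) ^ (Ideal.absNorm v.asIdeal)) < 1 := by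
    rintro ⟨q, hq⟩
    obtain ⟨hq1, hq2, hq3⟩ := Finset.mem_filter.1 hq
    exact key q (mem_pr.1 hq1).2 hq2 hq3
  choose g hg1 hg2 using h10
  refine Nat.card_le_card_of_injective (fun q => ⟨g q, hg2 q, ?_⟩) ?_
  · rw [hg1 q]
    exact (mem_pr.1 (Finset.mem_filter.1 q.2).1).1
  · intro q q' hqq
    have h11 : g q = g q' := congrArg Subtype.val hqq
    apply Subtype.ext
    rw [← hg1 q, ← hg1 q', h11]

end Pool.Agent.K3h73.RS
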