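import Pool.Agent.K3h30.RS.Stm

/-!
# Lifting a character of a finitely generated group to `ℚ[G]`
-/

set_option autoImplicit false

noncomputable section

namespace Pool.Agent.K3h73.RS

open Pool.Agent.K3h30.RS

/-- lifting to `ℚ` -/
theorem lift_rat {A : Type} [AddCommGroup A] [AddGroup.FG A] (w : ℕ)
    (hw : ∀ a : A, IsOfFinAddOrder a → w • a = 0) (χ : A →+ QZ) :
    ∃ g : A →+ ℚ, ∀ a, ((g a : ℚ) : QZ) = w • χ a := by
  haveI : Module.Finite ℤ A := Module.Finite.iff_addGroup_fg.mpr inferInstance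
  let L := A ⧸ Submodule.torsion ℤ A
  let π : ℚ →ₗ[ℤ] QZ := (QuotientAddGroup.mk' (AddSubgroup.zmultiples (1 : ℚ))).toIntLinearMap
  have hπ : Function.Surjective π := QuotientAddGroup.mk'_surjective _
  have hker : Submodule.torsion ℤ A ≤ LinearMap.ker (w • χ).toIntLinearMap := by
    intro a ha
    obtain ⟨n, hn⟩ := ha
    rw [LinearMap.mem_ker]
    change (w • χ) a = 0
    rw [AddMonoidHom.nsmul_apply, ← map_nsmul, hw a, map_zero]
    rw [isOfFinAddOrder_iff_zsmul_eq_zero]
    exact ⟨(n : ℤ), nonZeroDivisors.coe_ne_zero n, hn⟩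
  obtain ⟨h, hh⟩ := Module.projective_lifting_property π
    ((Submodule.torsion ℤ A).liftQ (w • χ).toIntLinearMap hker) hπ
  refine ⟨(h.comp (Submodule.mkQ (Submodule.torsion ℤ A))).toAddMonoidHom, fun a => ?_⟩
  have h1 := LinearMap.congr_fun hh (Submodule.mkQ (Submodule.torsion ℤ A) a)
  exact h1

theorem t_LAM : S_LAM := by
  intro G A _ _ _ _ _ w hw χ
  haveI := Fintype.ofFinite G
  classical
  obtain ⟨g, hg⟩ := lift_rat w hw χ
  refine ⟨{ toFun := fun a => ∑ δ : G, MonoidAlgebra.single δ (g (δ⁻¹ • a))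
            map_zero' := by simp
            map_add' := fun a b => by
              rw [← Finset.sum_add_distrib]
              refine Finset.sum_congr rfl fun δ _ => ?_
              rw [smul_add, map_add, MonoidAlgebra.single_add] }, ?_, ?_⟩
  · intro γ a
    change ∑ δ : G, MonoidAlgebra.single δ (g (δ⁻¹ • γ • a)) =
      MonoidAlgebra.single γ 1 * ∑ δ : G, MonoidAlgebra.single δ (g (δ⁻¹ • a))
    rw [Finset.mul_sum]
    refine (Fintype.sum_equiv (Equiv.mulLeft γ) _ _ fun δ => ?_).symm
    rw [MonoidAlgebra.single_mul_single, one_mul, Equiv.coe_mulLeft, smul_smul, mul_inv_rev,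
      inv_mul_cancel_right]
  · intro γ a
    change (((∑ δ : G, MonoidAlgebra.single δ (g (δ⁻¹ • a))).coeff γ : ℚ) : QZ) = _
    rw [MonoidAlgebra.coeff_sum, Finsupp.finsetSum_apply, Finset.sum_eq_single γ]
    · rw [MonoidAlgebra.coeff_single, Finsupp.single_eq_same]
      exact hg _
    · intro b _ hb
      rw [MonoidAlgebra.coeff_single, Finsupp.single_eq_of_ne]
      exact fun h => hb h.symm
    · intro h
      exact absurd (Finset.mem_univ γ) h

end Pool.Agent.K3h73.RS
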